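import Pool.Agent.W2helper43.BD.Stm

/-! Piece DEFA of project BD (owner helper43): `Br_H (F b)` is nonzero. -/

set_option autoImplicit false

namespace Pool.Agent.W2helper37.BD

open Pool.Agent.W2helper43.BD

theorem red_eq {Λ G : Type} [CommRing Λ] [IsLocalRing Λ] [Group G] (x : MonoidAlgebra Λ G) :
    red x = MonoidAlgebra.mapRingHom G (IsLocalRing.residue Λ) x := by
  ext g
  simp [red]

theorem red_coeff {Λ G : Type} [CommRing Λ] [IsLocalRing Λ] [Group G] (x : MonoidAlgebra Λ G)
    (g : G) : (red x).coeff g = IsLocalRing.residue Λ (x.coeff g) := by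
  simp [red]

theorem red_mul {Λ G : Type} [CommRing Λ] [IsLocalRing Λ] [Group G] (x y : MonoidAlgebra Λ G) :
    red (x * y) = red x * red y := by
  simp only [red_eq, map_mul]

theorem red_conj {Λ G : Type} [CommRing Λ] [IsLocalRing Λ] [Group G] (γ : G)
    (x : MonoidAlgebra Λ G) : red (conj γ x) = conj γ (red x) := by
  unfold conj
  simp only [red_eq, map_mul]
  simp

theorem cut_coeff {k G : Type} [CommRing k] [Group G] (H : Subgroup G) (x : MonoidAlgebra k G)
    (g : G) (hg : g ∈ Subgroup.centralizer (H : Set G)) : (cut H x).coeff g = x.coeff g := by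
  classical
  unfold cut
  simp only [MonoidAlgebra.coeff_ofCoeff]
  rw [Finsupp.filter_apply]
  split_ifs <;> first | rfl | contradiction

theorem cut_coeff_not {k G : Type} [CommRing k] [Group G] (H : Subgroup G) (x : MonoidAlgebra k G)
    (g : G) (hg : g ∉ Subgroup.centralizer (H : Set G)) : (cut H x).coeff g = 0 := by
  classical
  unfold cut
  simp only [MonoidAlgebra.coeff_ofCoeff]
  rw [Finsupp.filter_apply]
  split_ifs <;> first | rfl | contradiction

theorem conj_central {k Γ : Type} [CommRing k] [Group Γ] (γ : Γ) (x : MonoidAlgebra k Γ)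
    (h : ∀ y, x * y = y * x) : conj γ x = x := by
  unfold conj
  rw [← h, mul_assoc, MonoidAlgebra.single_mul_single, mul_inv_cancel, one_mul,
    ← MonoidAlgebra.one_def, mul_one]

theorem conj_one {k Γ : Type} [CommRing k] [Group Γ] (x : MonoidAlgebra k Γ) : conj 1 x = x := by
  unfold conj
  rw [inv_one, ← MonoidAlgebra.one_def, mul_one, one_mul]

theorem p_defa : P_DEFA := by
  intro hE hPHI hCOEF hCONJ hORB hMULT ℓ hℓ Λ V G Γ _ _ _ _ _ _ _ _ _ D b hb hbc H hH hbr h0
  obtain ⟨c1, -, -, c4, -, c6⟩ := hCONJ hE hPHI hCOEF D b hb hbc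
  obtain ⟨k1, -⟩ := hCOEF D b
  have hH' : IsPGroup ℓ (H.map D.iG) := hH.map D.iG
  have hfix : ∀ h ∈ H.map D.iG, conj h (red (D.f b)) = red (D.f b) := by
    rintro _ ⟨h, hh, rfl⟩
    rw [← red_conj, c1 _ (D.mem_I.2 ⟨1, h, by simp⟩)]
  have hfix' : ∀ h ∈ H.map D.iG, conj h (red (D.F b)) = red (D.F b) := by
    intro h _
    rw [← red_conj, conj_central h _ c4]
  have hm := hMULT hORB hℓ (k := IsLocalRing.ResidueField Λ) (H.map D.iG) hH' (red (D.F b))
    (red (D.f b)) hfix' hfix
  have h6 := c6 1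
  rw [conj_one] at h6
  rw [← red_mul, h6] at hm
  have h7 : cut (H.map D.iG) (red (D.f b)) = 0 := by
    rw [hm]
    have : cut (H.map D.iG) (red (D.F b)) = 0 := h0
    rw [this, zero_mul]
  apply hbr
  ext g
  by_cases hg : g ∈ Subgroup.centralizer (H : Set G)
  · have hg' : D.iG g ∈ Subgroup.centralizer ((H.map D.iG : Subgroup Γ) : Set Γ) := by
      rw [Subgroup.mem_centralizer_iff]
      rintro _ ⟨h, hh, rfl⟩
      rw [← map_mul, ← map_mul, Subgroup.mem_centralizer_iff.1 hg h hh]
    have h8 := congrArg (fun z => z.coeff (D.iG g)) h7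
    simp only [cut_coeff _ _ _ hg', red_coeff] at h8
    have h9 := k1 g 1
    rw [map_one, mul_one, inv_one, map_one, mul_one] at h9
    rw [h9, map_mul] at h8
    have hc : IsLocalRing.residue Λ D.c ≠ 0 := by
      have h10 := congrArg (IsLocalRing.residue Λ) D.hc
      rw [map_mul, map_one] at h10
      exact left_ne_zero_of_mul_eq_one h10
    unfold br
    rw [cut_coeff _ _ _ hg, red_coeff]
    have h11 : IsLocalRing.residue Λ (b.coeff g) * IsLocalRing.residue Λ D.c = 0 := by
      simpa using h8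
    simpa using (mul_eq_zero.1 h11).resolve_right hc
  · unfold br
    rw [cut_coeff_not _ _ _ hg]
    simp

end Pool.Agent.W2helper37.BD
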